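import Mathlib
import Pool.Agent.Helper11.GP.Types
import Pool.Agent.Helper11.SpanTypes
import Pool.Agent.Helper11.CanTypes

/-!
# Extensions of the base field and Galois actions on cohomology: definitions
-/

universe u v w u' w' t

open CategoryTheory TensorProduct

namespace Pool.Agent.Helper34.GD

open Pool.Agent.Helper10 SmProjVar Pool.Agent.Helper11 Pool.Agent.Helper11.Obs
  Pool.Agent.Helper11.BD

section

variable {k : Type u} [Field k] {K : Type v} [Field K] (W : CohomologyData.{u, v, w} k K)

/-- The `F`-linear span in `H(X)` of the classes of algebraic cycles of codimension `j`. -/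
def codSpan (F : Subfield K) (X : SmProjVar k) (j : ℕ) : Submodule F (W.H X) :=
  Submodule.span F {z | ∃ c : X.Z j, z = W.cy X j c}

variable {P : ℕ} {V : Fin P → SmProjVar k}

/-- Let `ψ c : H(V c) → H(V c)` be maps, and let `χ` be a scalar. The class `z'` on the product
`T = V (c 0) × ⋯ × V (c (b - 1))` is the conjugate of the class `z` of codimension `j`:
`⟨z', ψ x₀ × ⋯ × ψ x_{b-1}⟩ = χ ^ (dim T - j) ⟨z, x₀ × ⋯ × x_{b-1}⟩` for all `x i` in
`H(V (c i))`. -/
def IsConj (ψ : ∀ c, W.H (V c) → W.H (V c)) (χ : K) {b : ℕ} (c : Fin b → Fin P) (j : ℕ)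
    (z z' : W.H (prodVar (pt k) fun i => V (c i))) : Prop :=
  ∀ x : ∀ i, W.H (V (c i)),
    W.pairing (prodVar (pt k) fun i => V (c i)) z' (extProd W 1 fun i => ψ (c i) (x i)) =
      χ ^ ((prodVar (pt k) fun i => V (c i)).dim - j) *
        W.pairing (prodVar (pt k) fun i => V (c i)) z (extProd W 1 x)

/-- The group `Γ` acts on the cohomology of the varieties `V c` over `k`, and on the classes of
algebraic cycles on their products, with the multiplier `χ`: every cycle `z` on a product has
conjugates `z ^ g` of the same codimension, where `⟨z ^ g, g x₀ × ⋯ × g x_{b-1}⟩ =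
χ(g) ^ (dim z) ⟨z, x₀ × ⋯ × x_{b-1}⟩`, there are only finitely many of them, up to homological
equivalence, and the intersection numbers of conjugate cycles are the same. (Example: the absolute
Galois group of `k₀` on `ℓ`-adic cohomology, for an algebraic Galois extension `k / k₀`, if the
`V c` are defined over `k₀`; then `χ` is the inverse of the cyclotomic character, and `z ^ g` is the
image of the cycle `z` under `g`.) -/
structure IsGaloisAction (V : Fin P → SmProjVar k) {Γ : Type t} [Group Γ] (χ : Γ →* Kˣ)
    (ψ : Γ → ∀ c, W.H (V c) → W.H (V c)) : Prop where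
  one : ∀ c x, ψ 1 c x = x
  mul : ∀ g h c x, ψ (g * h) c x = ψ g c (ψ h c x)
  cycle : ∀ (g : Γ) (b j : ℕ) (c : Fin b → Fin P) (z : (prodVar (pt k) fun i => V (c i)).Z j),
    ∃ z' : (prodVar (pt k) fun i => V (c i)).Z j,
      IsConj W (ψ g) (χ g : K) c j (W.cy _ j z) (W.cy _ j z')
  finite : ∀ (b j : ℕ) (c : Fin b → Fin P) (z : (prodVar (pt k) fun i => V (c i)).Z j),
    {y | ∃ g, IsConj W (ψ g) (χ g : K) c j (W.cy _ j z) y}.Finite
  inter : ∀ (g : Γ) (b i j : ℕ) (c : Fin b → Fin P)
    (z z' : (prodVar (pt k) fun l => V (c l)).Z i) (y y' : (prodVar (pt k) fun l => V (c l)).Z j),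
    i + j = (prodVar (pt k) fun l => V (c l)).dim →
      IsConj W (ψ g) (χ g : K) c i (W.cy _ i z) (W.cy _ i z') →
        IsConj W (ψ g) (χ g : K) c j (W.cy _ j y) (W.cy _ j y') →
          W.inter _ i j z' y' = W.inter _ i j z y

end

section

variable {k₀ : Type u} [Field k₀] {k : Type u'} [Field k] {K : Type v} [Field K]
  (W₀ : CohomologyData.{u, v, w} k₀ K) (W : CohomologyData.{u', v, w'} k K)

/-- The varieties `V c` over `k` are obtained from the varieties `V₀ c` over `k₀` by extension of
the base field, and the group `Γ` acts, by means of `ψ` and `χ`, like a Galois group: cycles on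
products of the `V₀ c` give cycles on products of the `V c`, and a combination, with coefficients
in the field `F`, of classes of cycles of codimension `j` on a product of the `V c` comes from such
a combination on the product of the `V₀ c` if it is fixed by `Γ`. (Example: `ℓ`-adic cohomology,
`V c = V₀ c ⊗ k`, the extension `k / k₀` is algebraic and Galois, or `k` is any algebraically closed
extension of `k₀`, and `Γ` is the absolute Galois group of `k₀`.) -/
structure IsGaloisExtension {P : ℕ} (F : Subfield K) (V₀ : Fin P → SmProjVar k₀)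
    (V : Fin P → SmProjVar k) (φ : ∀ c, W₀.H (V₀ c) → W.H (V c)) {Γ : Type t} [Group Γ]
    (χ : Γ →* Kˣ) (ψ : Γ → ∀ c, W.H (V c) → W.H (V c)) : Prop where
  extension : AreSpecializations W₀ W V₀ V φ
  action : IsGaloisAction W V χ ψ
  descent : ∀ (b j : ℕ) (c : Fin b → Fin P),
    ∀ z ∈ codSpan W F (prodVar (pt k) fun i => V (c i)) j,
      (∀ g, IsConj W (ψ g) (χ g : K) c j z z) →
        ∃ z₀ ∈ codSpan W₀ F (prodVar (pt k₀) fun i => V₀ (c i)) j, ∀ x : ∀ i, W₀.H (V₀ (c i)),
          W.pairing (prodVar (pt k) fun i => V (c i)) z (extProd W 1 fun i => φ (c i) (x i)) =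
            W₀.pairing (prodVar (pt k₀) fun i => V₀ (c i)) z₀ (extProd W₀ 1 x)

end

end Pool.Agent.Helper34.GD
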