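import Mathlib
import Pool.Agent.Helper34.GD.Types
import Pool.Agent.Helper41.SD.FamSlot

/-!
# The components of combinations of classes of cycles
-/

universe u v w

open CategoryTheory Finset

namespace Pool.Agent.Helper34.GD

open Pool.Agent.Helper10 hiding IsAlgAut parityPart
open SmProjVar Pool.Agent.Helper10.GIT
open Pool.Agent.Helper11 Pool.Agent.Helper11.BD
open Pool.Agent.Helper11.Obs (extProd wordClass prodVar prodFst prodProj IsNumTrivial)

variable {k : Type u} [Field k] {K : Type v} [Field K] [CharZero K]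
  (W : WeilCohomology.{u, v, w} k K) {F : Subfield K} {X : SmProjVar k}

/-- combinations of classes of codimension `j` are combinations of classes, of degree `2 j` -/
theorem mem_of_mem_codSpan {j : ℕ} {z : W.H X} (hz : z ∈ codSpan W.toCohomologyData F X j) :
    z ∈ cycleSpan W.toCohomologyData F X ∧ z ∈ W.gr X (2 * j) := by
  unfold codSpan at hz
  induction hz using Submodule.span_induction with
  | mem y hy =>
    obtain ⟨d, rfl⟩ := hy
    exact ⟨cy_mem_cycleSpan W F _ j d, W.cycleClasses.cy_mem _ j d⟩
  | zero => exact ⟨Submodule.zero_mem _, Submodule.zero_mem _⟩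
  | add a a' _ _ ha ha' =>
    exact ⟨Submodule.add_mem _ ha.1 ha'.1, Submodule.add_mem _ ha.2 ha'.2⟩
  | smul a x _ hx =>
    exact ⟨Submodule.smul_mem _ _ hx.1, Submodule.smul_mem _ (a : K) hx.2⟩

/-- the decomposition -/
lemma exists_components' {z : W.H X} (hz : z ∈ cycleSpan W.toCohomologyData F X) :
    ∃ y : ℕ → W.H X, (∀ j, y j ∈ codSpan W.toCohomologyData F X j) ∧
      z = ∑ j ∈ range (X.dim + 1), y j := by
  unfold cycleSpan at hz
  induction hz using Submodule.span_induction with
  | mem z hz =>
    obtain ⟨j, c, rfl⟩ := hz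
    refine ⟨fun i => if i = j then W.cy X j c else 0, fun i => ?_, ?_⟩
    · by_cases h : i = j
      · subst h
        exact Submodule.subset_span ⟨c, by simp⟩
      · have h0 : (fun i => if i = j then W.cy X j c else 0) i = 0 := if_neg h
        rw [h0]
        exact Submodule.zero_mem _
    · rw [sum_ite_eq' (range (X.dim + 1)) j fun _ => W.cy X j c]
      split_ifs with h
      · rfl
      · have h1 := W.cycleClasses.cy_mem X j c
        rw [mem_range, not_lt] at h
        rw [(W.graded X).eq_bot (2 * j) (by omega)] at h1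
        exact (Submodule.mem_bot K).mp h1
  | zero => exact ⟨fun _ => 0, fun _ => Submodule.zero_mem _, by rw [sum_const_zero]⟩
  | add a a' _ _ ha ha' =>
    obtain ⟨y, hy, rfl⟩ := ha
    obtain ⟨y', hy', rfl⟩ := ha'
    exact ⟨fun j => y j + y' j, fun j => Submodule.add_mem _ (hy j) (hy' j), by
      rw [sum_add_distrib]⟩
  | smul a x _ hx =>
    obtain ⟨y, hy, rfl⟩ := hx
    exact ⟨fun j => a • y j, fun j => Submodule.smul_mem _ _ (hy j), by rw [smul_sum]⟩

/-- a combination of classes of degree `2 j` is a combination of classes of codimension `j` -/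
theorem mem_codSpan {j : ℕ} {z : W.H X} (hz : z ∈ cycleSpan W.toCohomologyData F X)
    (hj : z ∈ W.gr X (2 * j)) : z ∈ codSpan W.toCohomologyData F X j := by
  obtain ⟨y, hy, hzy⟩ := exists_components' W hz
  by_cases hjd : j ∈ range (X.dim + 1)
  · have h1 : z - y j = ∑ i ∈ (range (X.dim + 1)).erase j, y i := by
      rw [hzy, ← add_sum_erase _ _ hjd, add_sub_cancel_left]
    have h2 : z - y j ∈ W.gr X (2 * j) :=
      Submodule.sub_mem _ hj (mem_of_mem_codSpan W (hy j)).2
    have h3 : z - y j ∈ ⨆ i ≠ 2 * j, W.gr X i := by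
      rw [h1]
      refine Submodule.sum_mem _ fun i hi => ?_
      have hij : 2 * i ≠ 2 * j := fun h => (mem_erase.mp hi).1 (by omega)
      exact Submodule.mem_iSup_of_mem (2 * i) (Submodule.mem_iSup_of_mem hij
        (mem_of_mem_codSpan W (hy i)).2)
    have h4 := Submodule.disjoint_def.mp ((W.graded X).indep (2 * j)) _ h2 h3
    rw [sub_eq_zero.mp h4]
    exact hy j
  · rw [mem_range, not_lt] at hjd
    rw [(W.graded X).eq_bot (2 * j) (by omega)] at hj
    rw [(Submodule.mem_bot K).mp hj]
    exact Submodule.zero_mem _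

/-- the decomposition, and numerically trivial classes -/
theorem exists_components {z : W.H X} (hz : z ∈ cycleSpan W.toCohomologyData F X) :
    ∃ y : ℕ → W.H X, (∀ j, y j ∈ codSpan W.toCohomologyData F X j) ∧
      z = ∑ j ∈ range (X.dim + 1), y j ∧
      (IsNumTrivial W.toCohomologyData X z → ∀ j, IsNumTrivial W.toCohomologyData X (y j)) := by
  obtain ⟨y, hy, hzy⟩ := exists_components' W hz
  refine ⟨y, hy, hzy, fun hnt j => ⟨cycleSpan_le W _ (mem_of_mem_codSpan W (hy j)).1,
    fun a ha => ?_⟩⟩
  change W.trL X (y j * a) = 0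
  unfold CohomologyData.algClasses at ha
  induction ha using Submodule.span_induction with
  | mem a ha =>
    obtain ⟨i, d, rfl⟩ := ha
    have hdeg : ∀ l, l + i ≠ X.dim → W.trL X (y l * W.cy X i d) = 0 := by
      intro l hl
      refine (W.trace X).eq_zero (2 * l + 2 * i) _ (by omega) ?_
      exact (W.graded X).mul_mem _ _ _ _ (mem_of_mem_codSpan W (hy l)).2
        (W.cycleClasses.cy_mem X i d)
    by_cases hij : j + i = X.dim
    · have h1 : W.trL X (z * W.cy X i d) = 0 := hnt.2 _ (Submodule.subset_span ⟨i, d, rfl⟩)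
      rw [hzy, sum_mul, map_sum, sum_eq_single j (fun l _ hl => hdeg l (by omega))
        (fun h => absurd (mem_range.mpr (by omega)) h)] at h1
      exact h1
    · exact hdeg j hij
  | zero => rw [mul_zero, map_zero]
  | add a b _ _ ha hb => rw [mul_add, map_add, ha, hb, add_zero]
  | smul c a _ ha => rw [mul_smul_comm, map_smul, ha, smul_zero]

end Pool.Agent.Helper34.GD
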