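import Mathlib
import Pool.Agent.Helper34.GD.Types
import Pool.Agent.Helper41.SD.FamSlot

/-!
# The conjugates of a class under a Galois action
-/

universe u v w u' w' t

open CategoryTheory Finset

namespace Pool.Agent.Helper34.GD

open Pool.Agent.Helper10 hiding IsAlgAut parityPart
open SmProjVar Pool.Agent.Helper10.GIT
open Pool.Agent.Helper11 Pool.Agent.Helper11.BD
open Pool.Agent.Helper11.Obs (extProd wordClass prodVar prodFst prodProj IsNumTrivial)

variable {k : Type u} [Field k] {K : Type v} [Field K] [CharZero K]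
  {W : WeilCohomology.{u, v, w} k K} {F : Subfield K}
  {P : ℕ} {V : Fin P → SmProjVar k} {Γ : Type t} [Group Γ] {χ : Γ →* Kˣ}
  {ψ : Γ → ∀ c, W.H (V c) → W.H (V c)}

section

variable {b : ℕ} {c : Fin b → Fin P} {j : ℕ}
  {z y y' : W.H (prodVar (pt k) fun i => V (c i))} {g h : Γ}

lemma isConj_iff : IsConj W.toCohomologyData (ψ g) (χ g : K) c j z y ↔
    ∀ x : ∀ i, W.H (V (c i)), W.trL (prodVar (pt k) fun i => V (c i))
      (y * (extProd W.toCohomologyData (A := pt k) 1 (fun i => ψ g (c i) (x i)) :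
        W.H (prodVar (pt k) fun i => V (c i)))) =
      (χ g : K) ^ ((prodVar (pt k) fun i => V (c i)).dim - j) *
        W.trL (prodVar (pt k) fun i => V (c i))
          (z * (extProd W.toCohomologyData (A := pt k) 1 x :
            W.H (prodVar (pt k) fun i => V (c i)))) := Iff.rfl

/-- classes with the same values on external products are equal -/
lemma eq_of_extProd_eq {b : ℕ} {V : Fin b → SmProjVar k} {z z' : W.H (prodVar (pt k) V)}
    (h : ∀ v : ∀ i, W.H (V i), W.trL (prodVar (pt k) V)
      (z * (extProd W.toCohomologyData (A := pt k) 1 v : W.H (prodVar (pt k) V))) =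
      W.trL (prodVar (pt k) V)
        (z' * (extProd W.toCohomologyData (A := pt k) 1 v : W.H (prodVar (pt k) V)))) : z = z' := by
  by_contra hne
  obtain ⟨v, hv⟩ := exists_extProd_ne_zero W (sub_ne_zero.mpr hne)
  apply hv
  rw [sub_mul, map_sub, h, sub_self]

variable (hG : IsGaloisAction W.toCohomologyData V χ ψ)

include hG

lemma psi_inv (g : Γ) (c : Fin P) (x : W.H (V c)) : ψ g c (ψ g⁻¹ c x) = x := by
  rw [← hG.mul, mul_inv_cancel, hG.one]

lemma inv_psi (g : Γ) (c : Fin P) (x : W.H (V c)) : ψ g⁻¹ c (ψ g c x) = x := by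
  rw [← hG.mul, inv_mul_cancel, hG.one]

lemma isConj_unique (h1 : IsConj W.toCohomologyData (ψ g) (χ g : K) c j z y)
    (h2 : IsConj W.toCohomologyData (ψ g) (χ g : K) c j z y') : y = y' := by
  refine eq_of_extProd_eq fun v => ?_
  have hv : v = fun i => ψ g (c i) (ψ g⁻¹ (c i) (v i)) := by
    funext i
    rw [psi_inv hG]
  rw [hv, isConj_iff.mp h1, isConj_iff.mp h2]

lemma isConj_one : IsConj W.toCohomologyData (ψ 1) (χ 1 : K) c j z z := by
  refine isConj_iff.mpr fun x => ?_
  have h1 : (fun i => ψ 1 (c i) (x i)) = x := by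
    funext i
    rw [hG.one]
  rw [h1, map_one, Units.val_one, one_pow, one_mul]

lemma isConj_mul (h1 : IsConj W.toCohomologyData (ψ g) (χ g : K) c j z y)
    (h2 : IsConj W.toCohomologyData (ψ h) (χ h : K) c j y y') :
    IsConj W.toCohomologyData (ψ (h * g)) (χ (h * g) : K) c j z y' := by
  refine isConj_iff.mpr fun x => ?_
  have h3 : (fun i => ψ (h * g) (c i) (x i)) = fun i => ψ h (c i) (ψ g (c i) (x i)) := by
    funext i
    rw [hG.mul]
  rw [h3, isConj_iff.mp h2, isConj_iff.mp h1, map_mul χ h g, Units.val_mul, mul_pow, mul_assoc]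

lemma isConj_inv (h1 : IsConj W.toCohomologyData (ψ g) (χ g : K) c j z y) :
    IsConj W.toCohomologyData (ψ g⁻¹) (χ g⁻¹ : K) c j y z := by
  refine isConj_iff.mpr fun x => ?_
  have h2 := isConj_iff.mp h1 fun i => ψ g⁻¹ (c i) (x i)
  have h3 : (fun i => ψ g (c i) (ψ g⁻¹ (c i) (x i))) = x := by
    funext i
    rw [psi_inv hG]
  rw [h3] at h2
  rw [h2, map_inv, ← mul_assoc, ← mul_pow, Units.inv_mul, one_pow, one_mul]

/-- combinations of cycles have conjugates -/
lemma exists_conj (g : Γ)
    (hz : z ∈ codSpan W.toCohomologyData F (prodVar (pt k) fun i => V (c i)) j) :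
    ∃ y ∈ codSpan W.toCohomologyData F (prodVar (pt k) fun i => V (c i)) j,
      IsConj W.toCohomologyData (ψ g) (χ g : K) c j z y := by
  unfold codSpan at hz
  induction hz using Submodule.span_induction with
  | mem z hz =>
    obtain ⟨d, rfl⟩ := hz
    obtain ⟨d', h⟩ := hG.cycle g b j c d
    exact ⟨_, Submodule.subset_span ⟨d', rfl⟩, h⟩
  | zero =>
    exact ⟨0, Submodule.zero_mem _, isConj_iff.mpr fun x => by
      rw [zero_mul, zero_mul, map_zero, mul_zero]⟩
  | add a a' _ _ ha ha' =>
    obtain ⟨y, hy, h1⟩ := ha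
    obtain ⟨y', hy', h2⟩ := ha'
    exact ⟨y + y', Submodule.add_mem _ hy hy', isConj_iff.mpr fun x => by
      rw [add_mul, add_mul, map_add, map_add, isConj_iff.mp h1, isConj_iff.mp h2, mul_add]⟩
  | smul a x _ hx =>
    obtain ⟨y, hy, h1⟩ := hx
    exact ⟨a • y, Submodule.smul_mem _ _ hy, isConj_iff.mpr fun x' => by
      have e1 : a • y = (a : K) • y := rfl
      have e2 : a • x = (a : K) • x := rfl
      rw [e1, e2, smul_mul_assoc, smul_mul_assoc, map_smul, map_smul, isConj_iff.mp h1,
        smul_eq_mul, smul_eq_mul, mul_left_comm]⟩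

/-- combinations of cycles have finitely many conjugates -/
lemma finite_conj
    (hz : z ∈ codSpan W.toCohomologyData F (prodVar (pt k) fun i => V (c i)) j) :
    {y | ∃ g, IsConj W.toCohomologyData (ψ g) (χ g : K) c j z y}.Finite := by
  unfold codSpan at hz
  induction hz using Submodule.span_induction with
  | mem z hz =>
    obtain ⟨d, rfl⟩ := hz
    exact hG.finite b j c d
  | zero =>
    refine (Set.finite_singleton 0).subset ?_
    rintro y ⟨g, hy⟩
    exact isConj_unique hG hy (isConj_iff.mpr fun x => by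
      rw [zero_mul, zero_mul, map_zero, mul_zero])
  | add a a' ha0 ha0' ha ha' =>
    refine (ha.image2 (· + ·) ha').subset ?_
    rintro y ⟨g, hy⟩
    obtain ⟨y1, -, h1⟩ := exists_conj (F := F) hG g ha0
    obtain ⟨y2, -, h2⟩ := exists_conj (F := F) hG g ha0'
    refine ⟨y1, ⟨g, h1⟩, y2, ⟨g, h2⟩, ?_⟩
    exact isConj_unique hG (isConj_iff.mpr fun x => by
      rw [add_mul, add_mul, map_add, map_add, isConj_iff.mp h1, isConj_iff.mp h2, mul_add]) hy
  | smul a x hx0 hx =>
    refine (hx.image (a • ·)).subset ?_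
    rintro y ⟨g, hy⟩
    obtain ⟨y1, -, h1⟩ := exists_conj (F := F) hG g hx0
    refine ⟨y1, ⟨g, h1⟩, ?_⟩
    refine isConj_unique hG (isConj_iff.mpr fun x' => ?_) hy
    have e1 : a • y1 = (a : K) • y1 := rfl
    have e2 : a • x = (a : K) • x := rfl
    change W.trL _ ((a • y1) * _) = _
    rw [e1, e2, smul_mul_assoc, smul_mul_assoc, map_smul, map_smul, isConj_iff.mp h1,
      smul_eq_mul, smul_eq_mul, mul_left_comm]

/-- conjugates of combinations of cycles are combinations of cycles -/
lemma isConj_mem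
    (hz : z ∈ codSpan W.toCohomologyData F (prodVar (pt k) fun i => V (c i)) j)
    (hy : IsConj W.toCohomologyData (ψ g) (χ g : K) c j z y) :
    y ∈ codSpan W.toCohomologyData F (prodVar (pt k) fun i => V (c i)) j := by
  obtain ⟨y', hy', h⟩ := exists_conj (F := F) hG g hz
  rwa [isConj_unique hG hy h]

/-- conjugates have the same intersection numbers -/
lemma isConj_tr {i : ℕ} (hij : j + i = (prodVar (pt k) fun i => V (c i)).dim)
    (hz : z ∈ codSpan W.toCohomologyData F (prodVar (pt k) fun i => V (c i)) j)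
    (hy : IsConj W.toCohomologyData (ψ g) (χ g : K) c j z y)
    {d d' : (prodVar (pt k) fun i => V (c i)).Z i}
    (hd : IsConj W.toCohomologyData (ψ g) (χ g : K) c i (W.cy _ i d) (W.cy _ i d')) :
    W.trL (prodVar (pt k) fun i => V (c i)) (y * W.cy _ i d') =
      W.trL (prodVar (pt k) fun i => V (c i)) (z * W.cy _ i d) := by
  have key : ∃ y, IsConj W.toCohomologyData (ψ g) (χ g : K) c j z y ∧
      W.trL (prodVar (pt k) fun i => V (c i)) (y * W.cy _ i d') =
        W.trL (prodVar (pt k) fun i => V (c i)) (z * W.cy _ i d) := by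
    clear hy
    unfold codSpan at hz
    induction hz using Submodule.span_induction with
    | mem z hz =>
      obtain ⟨e, rfl⟩ := hz
      obtain ⟨e', h⟩ := hG.cycle g b j c e
      refine ⟨_, h, ?_⟩
      have h1 := W.cycleClasses.tr_cy_mul _ j i e' d' hij
      have h2 := W.cycleClasses.tr_cy_mul _ j i e d hij
      change W.tr _ _ = W.tr _ _
      rw [h1, h2, hG.inter g b j i c e e' d d' hij h hd]
    | zero =>
      exact ⟨0, isConj_iff.mpr fun x => by rw [zero_mul, zero_mul, map_zero, mul_zero], by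
        rw [zero_mul, zero_mul]⟩
    | add a a' _ _ ha ha' =>
      obtain ⟨y, hy, h1⟩ := ha
      obtain ⟨y', hy', h2⟩ := ha'
      exact ⟨y + y', isConj_iff.mpr fun x => by
        rw [add_mul, add_mul, map_add, map_add, isConj_iff.mp hy, isConj_iff.mp hy', mul_add], by
        rw [add_mul, add_mul, map_add, map_add, h1, h2]⟩
    | smul a x _ hx =>
      obtain ⟨y, hy, h1⟩ := hx
      have e1 : a • y = (a : K) • y := rfl
      have e2 : a • x = (a : K) • x := rfl
      exact ⟨a • y, isConj_iff.mpr fun x' => by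
        rw [e1, e2, smul_mul_assoc, smul_mul_assoc, map_smul, map_smul, isConj_iff.mp hy,
          smul_eq_mul, smul_eq_mul, mul_left_comm], by
        rw [e1, e2, smul_mul_assoc, smul_mul_assoc, map_smul, map_smul, h1]⟩
  obtain ⟨y', hy', h⟩ := key
  rwa [isConj_unique hG hy hy']

/-- conjugates of numerically trivial classes are numerically trivial -/
lemma isConj_isNumTrivial
    (hz : z ∈ codSpan W.toCohomologyData F (prodVar (pt k) fun i => V (c i)) j)
    (hnt : IsNumTrivial W.toCohomologyData _ z)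
    (hy : IsConj W.toCohomologyData (ψ g) (χ g : K) c j z y) :
    IsNumTrivial W.toCohomologyData _ y := by
  have hyc := isConj_mem hG hz hy
  have hya : y ∈ cycleSpan W.toCohomologyData F (prodVar (pt k) fun i => V (c i)) ∧
      y ∈ W.gr (prodVar (pt k) fun i => V (c i)) (2 * j) := by
    clear hy hnt hz
    unfold codSpan at hyc
    induction hyc using Submodule.span_induction with
    | mem y hy =>
      obtain ⟨d, rfl⟩ := hy
      exact ⟨cy_mem_cycleSpan W F _ j d, W.cycleClasses.cy_mem _ j d⟩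
    | zero => exact ⟨Submodule.zero_mem _, Submodule.zero_mem _⟩
    | add a a' _ _ ha ha' =>
      exact ⟨Submodule.add_mem _ ha.1 ha'.1, Submodule.add_mem _ ha.2 ha'.2⟩
    | smul a x _ hx =>
      exact ⟨Submodule.smul_mem _ _ hx.1, Submodule.smul_mem _ (a : K) hx.2⟩
  refine ⟨cycleSpan_le W _ hya.1, fun a ha => ?_⟩
  change W.trL _ (y * a) = 0
  unfold CohomologyData.algClasses at ha
  induction ha using Submodule.span_induction with
  | mem a ha =>
    obtain ⟨i, d, rfl⟩ := ha
    by_cases hij : j + i = (prodVar (pt k) fun i => V (c i)).dim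
    · obtain ⟨d', hd'⟩ := hG.cycle g⁻¹ b i c d
      have h1 := isConj_inv hG hd'
      rw [inv_inv] at h1
      rw [isConj_tr hG hij hz hy h1]
      exact hnt.2 _ (Submodule.subset_span ⟨i, d', rfl⟩)
    · refine (W.trace _).eq_zero (2 * j + 2 * i) _ (by omega) ?_
      exact (W.graded _).mul_mem _ _ _ _ hya.2 (W.cycleClasses.cy_mem _ i d)
  | zero => rw [mul_zero, map_zero]
  | add a b _ _ ha hb => rw [mul_add, map_add, ha, hb, add_zero]
  | smul c a _ ha => rw [mul_smul_comm, map_smul, ha, smul_zero]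

end

end Pool.Agent.Helper34.GD
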