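import Mathlib
import Pool.Agent.Helper34.GD.Orb
import Pool.Agent.Helper34.GD.Hom
import Pool.Agent.Helper47.GD.Ext
import Pool.Agent.Helper29.GD.Dim

/-!
# The power sums of the conjugates of a numerically trivial class
-/

universe u v w u' w' t

open CategoryTheory Finset

namespace Pool.Agent.Helper34.GD

open Pool.Agent.Helper10 hiding IsAlgAut parityPart
open SmProjVar Pool.Agent.Helper10.GIT
open Pool.Agent.Helper11 Pool.Agent.Helper11.BD
open Pool.Agent.Helper11.Obs (extProd wordClass prodVar prodFst prodProj IsNumTrivial)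

variable {k : Type u} [Field k] {K : Type v} [Field K] [CharZero K]
  {W : WeilCohomology.{u, v, w} k K} {F : Subfield K}
  {P : ℕ} {V : Fin P → SmProjVar k} {Γ : Type t} [Group Γ] {χ : Γ →* Kˣ}
  {ψ : Γ → ∀ c, W.H (V c) → W.H (V c)}

/-- every family on the repeated slots -/
lemma exists_rows {b r : ℕ} {M : Fin b → Type*} (y : ∀ q : Fin (r * b), M q.modNat) :
    ∃ x : Fin r → ∀ l, M l, (fun q : Fin (r * b) => x q.divNat q.modNat) = y := by
  let e : Fin r × Fin b ≃ Fin (r * b) := finProdFinEquiv
  let E := Equiv.piCongrLeft' (fun p : Fin r × Fin b => M p.2) e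
  refine ⟨fun i l => E.symm y (i, l), ?_⟩
  exact E.apply_symm_apply y

/-- **The power sums.** The sum of the external `r`-th powers of the conjugates of a numerically
trivial class is numerically trivial and fixed by the group. -/
theorem exists_psum (hG : IsGaloisAction W.toCohomologyData V χ ψ) {b j : ℕ} {c : Fin b → Fin P}
    {z : W.H (prodVar (pt k) fun i => V (c i))}
    (hz : z ∈ codSpan W.toCohomologyData F (prodVar (pt k) fun i => V (c i)) j)
    (hnt : IsNumTrivial W.toCohomologyData _ z) :
    ∃ O : Finset (W.H (prodVar (pt k) fun i => V (c i))), z ∈ O ∧ ∀ r : ℕ, 0 < r →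
      ∃ (a : K) (U : W.H (prodVar (pt k) fun q : Fin (r * b) => V (c q.modNat))), a ≠ 0 ∧
        U ∈ codSpan W.toCohomologyData F (prodVar (pt k) fun q : Fin (r * b) => V (c q.modNat))
          (r * j) ∧
        IsNumTrivial W.toCohomologyData _ U ∧
        (∀ g, IsConj W.toCohomologyData (ψ g) (χ g : K) (fun q : Fin (r * b) => c q.modNat)
          (r * j) U U) ∧
        ∀ x : Fin r → ∀ l, W.H (V (c l)),
          W.trL (prodVar (pt k) fun q : Fin (r * b) => V (c q.modNat)) (U *
            (extProd W.toCohomologyData (A := pt k) 1 (fun q => x q.divNat q.modNat) :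
              W.H (prodVar (pt k) fun q : Fin (r * b) => V (c q.modNat)))) =
            a * ∑ y ∈ O, ∏ i, W.trL (prodVar (pt k) fun i => V (c i)) (y *
              (extProd W.toCohomologyData (A := pt k) 1 (x i) :
                W.H (prodVar (pt k) fun i => V (c i)))) := by
  classical
  let T : SmProjVar k := prodVar (pt k) fun i => V (c i)
  have hfin := finite_conj (F := F) hG hz
  let O : Finset (W.H T) := hfin.toFinset
  have hO : ∀ y, y ∈ O ↔ ∃ g, IsConj W.toCohomologyData (ψ g) (χ g : K) c j z y := fun y =>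
    hfin.mem_toFinset
  refine ⟨O, (hO z).mpr ⟨1, isConj_one hG⟩, fun r hr => ?_⟩
  have hcod : ∀ y ∈ O, y ∈ codSpan W.toCohomologyData F T j := by
    intro y hy
    obtain ⟨g, hg⟩ := (hO y).mp hy
    exact isConj_mem hG hz hg
  have hOnt : ∀ y ∈ O, IsNumTrivial W.toCohomologyData T y := by
    intro y hy
    obtain ⟨g, hg⟩ := (hO y).mp hy
    exact isConj_isNumTrivial hG hz hnt hg
  -- the external products
  obtain ⟨a, ha, hext⟩ := exists_extPower W F (fun i => V (c i)) r j
  choose Z hZ1 hZ2 hZ3 hZ4 using fun y : O =>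
    hext (y : W.H T) (mem_of_mem_codSpan W (hcod _ y.2)).1 (mem_of_mem_codSpan W (hcod _ y.2)).2
  let T' : SmProjVar k := prodVar (pt k) fun q : Fin (r * b) => V (c q.modNat)
  let U : W.H T' := ∑ y : O, Z y
  have hU : ∀ x : Fin r → ∀ l, W.H (V (c l)), W.trL T' (U *
      (extProd W.toCohomologyData (A := pt k) 1 (fun q => x q.divNat q.modNat) : W.H T')) =
      a * ∑ y : O, ∏ i, W.trL T ((y : W.H T) *
        (extProd W.toCohomologyData (A := pt k) 1 (x i) : W.H T)) := by
    intro x
    change W.trL T' ((∑ y : O, Z y) * _) = _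
    rw [sum_mul, map_sum, mul_sum]
    exact sum_congr rfl fun y _ => hZ4 y x
  refine ⟨a, U, ha, ?_, ?_, fun g => ?_, fun x => ?_⟩
  · exact Submodule.sum_mem _ fun y _ => mem_codSpan W (hZ1 y) (hZ2 y)
  · have hπ : ∀ y, IsNumTrivial W.toCohomologyData T' (Z y) := fun y =>
      hZ3 y hr (hOnt _ y.2)
    refine ⟨Submodule.sum_mem _ fun y _ => (hπ y).1, fun y hy => ?_⟩
    change W.trL T' ((∑ y : O, Z y) * y) = 0
    rw [sum_mul, map_sum]
    exact sum_eq_zero fun π _ => (hπ π).2 y hy
  · -- the class is fixed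
    have hinv : ∀ y : O, ∃ y' : O, IsConj W.toCohomologyData (ψ g) (χ g : K) c j
        (y' : W.H T) (y : W.H T) := by
      intro y
      obtain ⟨h, hh⟩ := (hO y).mp y.2
      obtain ⟨y', -, hy'⟩ := exists_conj (F := F) hG (g⁻¹) (hcod _ y.2)
      refine ⟨⟨y', (hO y').mpr ⟨g⁻¹ * h, isConj_mul hG hh hy'⟩⟩, ?_⟩
      have h1 := isConj_inv hG hy'
      rwa [inv_inv] at h1
    choose σ hσ using hinv
    have hσinj : Function.Injective σ := by
      intro y y' h
      have h1 := hσ y'
      rw [← h] at h1
      exact Subtype.ext (isConj_unique hG (hσ y) h1)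
    let τ : Equiv.Perm O := Equiv.ofBijective σ (Finite.injective_iff_bijective.mp hσinj)
    refine isConj_iff.mpr fun y => ?_
    obtain ⟨x, rfl⟩ := exists_rows (M := fun l => W.H (V (c l))) y
    have h1 := hU fun i l => ψ g (c l) (x i l)
    have h2 := hU x
    have h4 : ∀ (y : O) (x : ∀ l, W.H (V (c l))), W.trL T ((y : W.H T) *
        (extProd W.toCohomologyData (A := pt k) 1 (fun l => ψ g (c l) (x l)) : W.H T)) =
        (χ g : K) ^ (T.dim - j) * W.trL T ((τ y : W.H T) *
          (extProd W.toCohomologyData (A := pt k) 1 x : W.H T)) := fun y x =>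
      isConj_iff.mp (hσ y) x
    have h5 : ∑ y : O, ∏ i, W.trL T ((y : W.H T) *
        (extProd W.toCohomologyData (A := pt k) 1 (fun l => ψ g (c l) (x i l)) : W.H T)) =
        (χ g : K) ^ (r * (T.dim - j)) * ∑ y : O, ∏ i,
          W.trL T ((y : W.H T) *
            (extProd W.toCohomologyData (A := pt k) 1 (x i) : W.H T)) := by
      rw [mul_sum]
      refine Fintype.sum_equiv τ _ _ fun y => ?_
      rw [prod_congr rfl fun i _ => h4 y (x i), prod_mul_distrib, prod_const, card_univ,
        Fintype.card_fin, ← pow_mul, Nat.mul_comm]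
    have hdim : (prodVar (pt k) fun q : Fin (r * b) => V (c q.modNat)).dim - r * j =
        r * (T.dim - j) := by
      rw [Helper29.GD.dim_prodVar_pow (fun l => V (c l)) r, Nat.mul_sub]
    rw [hdim]
    refine h1.trans ?_
    rw [h5, mul_left_comm]
    exact congrArg _ h2.symm
  · rw [hU, sum_coe_sort O fun y => ∏ i, W.trL T (y *
      (extProd W.toCohomologyData (A := pt k) 1 (x i) : W.H T))]

end Pool.Agent.Helper34.GD
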