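import Mathlib
import Pool.Agent.Helper34.GD.Sum
import Pool.Agent.Helper29.GD.Cmp
import Pool.Agent.Helper11.SS.M

/-!
# Galois descent for the standard conjecture D
-/

universe u v w u' w' t

open CategoryTheory Finset

namespace Pool.Agent.Helper34.GD

open Pool.Agent.Helper10 hiding IsAlgAut parityPart
open SmProjVar Pool.Agent.Helper10.GIT
open Pool.Agent.Helper11 Pool.Agent.Helper11.BD
open Pool.Agent.Helper11.Obs (extProd wordClass prodVar prodFst prodProj IsNumTrivial power
  NumTrivialOrthogonal)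

/-- In characteristic zero, elements all of whose power sums vanish are zero. (Typed by
helper29.) -/
lemma eq_zero_of_psum {F : Type*} [Field F] [CharZero F] {ι : Type*} (s : Finset ι) (c : ι → F)
    (h : ∀ r : ℕ, ∑ i ∈ s, c i ^ (r + 1) = 0) : ∀ i ∈ s, c i = 0 := by
  classical
  intro i hi
  by_contra hne
  have h1 : ∀ p : Polynomial F, ∑ j ∈ s, c j * p.eval (c j) = 0 := by
    intro p
    induction p using Polynomial.induction_on' with
    | add p q hp hq =>
      simp only [Polynomial.eval_add, mul_add, Finset.sum_add_distrib, hp, hq, add_zero]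
    | monomial n a =>
      have : ∑ j ∈ s, c j * (Polynomial.monomial n a).eval (c j) =
          a * ∑ j ∈ s, c j ^ (n + 1) := by
        rw [Finset.mul_sum]
        refine Finset.sum_congr rfl fun j _ => ?_
        rw [Polynomial.eval_monomial]
        ring
      rw [this, h, mul_zero]
  have h2 := h1 (∏ v ∈ (s.image c).erase (c i), (Polynomial.X - Polynomial.C v))
  have h3 : ∀ j ∈ s, c j * (∏ v ∈ (s.image c).erase (c i),
      (Polynomial.X - Polynomial.C v)).eval (c j) = if c j = c i then c i *
      (∏ v ∈ (s.image c).erase (c i), (Polynomial.X - Polynomial.C v)).eval (c i) else 0 := by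
    intro j hj
    split_ifs with hji
    · rw [hji]
    · rw [Polynomial.eval_prod, Finset.prod_eq_zero
        (Finset.mem_erase.2 ⟨hji, Finset.mem_image_of_mem c hj⟩), mul_zero]
      rw [Polynomial.eval_sub, Polynomial.eval_X, Polynomial.eval_C, sub_self]
  rw [sum_congr rfl h3, ← sum_filter, sum_const, nsmul_eq_mul] at h2
  have h5 : (∏ v ∈ (s.image c).erase (c i), (Polynomial.X - Polynomial.C v)).eval (c i) ≠ 0 := by
    rw [Polynomial.eval_prod, Finset.prod_ne_zero_iff]
    intro v hv
    rw [Polynomial.eval_sub, Polynomial.eval_X, Polynomial.eval_C, sub_ne_zero]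
    exact fun h => (Finset.mem_erase.1 hv).1 h.symm
  have h6 : ((s.filter fun j => c j = c i).card : F) ≠ 0 := by
    rw [Nat.cast_ne_zero, Finset.card_ne_zero]
    exact ⟨i, Finset.mem_filter.2 ⟨hi, rfl⟩⟩
  exact mul_ne_zero h6 (mul_ne_zero hne h5) h2

section Rational

variable {k : Type u} [Field k] {K : Type v} [Field K] [CharZero K]
  (W : WeilCohomology.{u, v, w} k K) (F : Subfield K)

/-- numerically trivial classes are combinations of numerically trivial classes with coefficients
in the subfield `F` -/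
lemma exists_rational_parts {X : SmProjVar k} {z : W.H X}
    (hz : IsNumTrivial W.toCohomologyData X z) :
    ∃ (m : ℕ) (α : Fin m → K) (y : Fin m → W.H X),
      (∀ s, y s ∈ cycleSpan W.toCohomologyData F X ∧
        IsNumTrivial W.toCohomologyData X (y s)) ∧ z = ∑ s, α s • y s := by
  obtain ⟨n, a, g, hag⟩ := Submodule.mem_span_set'.mp hz.1
  let L : Submodule F K := Submodule.span F (Set.range a)
  have hfin : Module.Finite F L := Module.Finite.iff_fg.mpr
    (Submodule.fg_span (Set.finite_range a))
  let β := Module.finBasis F L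
  let a' : Fin n → L := fun i => ⟨a i, Submodule.subset_span ⟨i, rfl⟩⟩
  let y : Fin (Module.finrank F L) → W.H X := fun s => ∑ i, (β.repr (a' i) s : K) • (g i : W.H X)
  have hsum : z = ∑ s, (β s : K) • y s := by
    rw [← hag]
    have h1 : ∀ i, a i • (g i : W.H X) = ∑ s, (β s : K) • ((β.repr (a' i) s : K) •
        (g i : W.H X)) := by
      intro i
      have h2 := congrArg (Subtype.val : L → K) (β.sum_repr (a' i))
      rw [AddSubmonoidClass.coe_finset_sum] at h2
      have h3 : a i = ∑ s, (β s : K) * (β.repr (a' i) s : K) := by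
        refine h2.symm.trans (sum_congr rfl fun s _ => ?_)
        change (β.repr (a' i) s : K) * (β s : K) = _
        rw [mul_comm]
      rw [h3, sum_smul]
      exact sum_congr rfl fun s _ => mul_smul _ _ _
    rw [sum_congr rfl fun i _ => h1 i, sum_comm]
    exact sum_congr rfl fun s _ => (smul_sum).symm
  have hy : ∀ s, y s ∈ cycleSpan W.toCohomologyData F X := fun s =>
    Submodule.sum_mem _ fun i _ => by
      obtain ⟨j, c, h⟩ := (g i).2
      rw [h]
      exact smul_mem_cycleSpan W _ (cy_mem_cycleSpan W F X j c)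
  refine ⟨_, fun s => (β s : K), y, fun s => ⟨hy s, cycleSpan_le W _ (hy s), fun t ht => ?_⟩, hsum⟩
  unfold CohomologyData.algClasses at ht
  change W.trL X (y s * t) = 0
  induction ht using Submodule.span_induction with
  | mem t ht =>
    obtain ⟨j, c, rfl⟩ := ht
    choose q hq using fun s => tr_cycleSpan W X (hy s) (cy_mem_cycleGroup W X j c)
    have h1 : W.trL X (z * W.cy X j c) = 0 := hz.2 _ (Submodule.subset_span ⟨j, c, rfl⟩)
    rw [hsum, sum_mul, map_sum] at h1
    have h2 : ∑ s, q s • β s = 0 := by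
      apply Subtype.ext
      rw [AddSubmonoidClass.coe_finset_sum]
      refine Eq.trans (sum_congr rfl fun s _ => ?_) h1
      rw [smul_mul_assoc, map_smul, hq]
      change (q s : K) * (β s : K) = (β s : K) * (q s : K)
      rw [mul_comm]
    have h3 := Fintype.linearIndependent_iff.mp β.linearIndependent q h2 s
    rw [hq, h3]
    rfl
  | zero => rw [mul_zero, map_zero]
  | add a b _ _ ha hb => rw [mul_add, map_add, ha, hb, add_zero]
  | smul c a _ ha => rw [mul_smul_comm, map_smul, ha, smul_zero]

/-- pushing a word to the product -/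
lemma exists_push_word {T : SmProjVar k} {m b : ℕ} {V : Fin b → SmProjVar k}
    (p : T.toOver ⟶ (power (pt k) m).toOver) (x : W.H (power (pt k) m))
    (f : ∀ i, T.toOver ⟶ (V i).toOver) {z : W.H T}
    (hz : IsNumTrivial W.toCohomologyData T z) (hzF : z ∈ cycleSpan W.toCohomologyData F T) :
    ∃ (Z : W.H (prodVar (pt k) V)) (a : K), IsNumTrivial W.toCohomologyData (prodVar (pt k) V) Z ∧
      Z ∈ cycleSpan W.toCohomologyData F (prodVar (pt k) V) ∧ ∀ v : ∀ i, W.H (V i),
        W.trL T (z * wordClass W.toCohomologyData p f x v) = a * W.trL (prodVar (pt k) V)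
          (Z * (extProd W.toCohomologyData (A := pt k) 1 v : W.H (prodVar (pt k) V))) := by
  obtain ⟨Z, hZ, hZF, hZv⟩ := Ro.exists_push W (F := F) (A := pt k) (V := V) (toPt k T) f hz hzF
  have hone : (1 : W.H (power (pt k) m)) ≠ 0 := by
    intro h
    obtain ⟨y, ⟨-, hy⟩, -⟩ := (W.trace (power (pt k) m)).bijective 1
    rw [← one_mul y, h, zero_mul] at hy
    exact zero_ne_one ((map_zero (W.trL (power (pt k) m))).symm.trans hy)
  obtain ⟨a, rfl⟩ := Ro.exists_smul_of_dim_zero W (Ro.power_pt_dim m) hone x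
  refine ⟨Z, a, hZ, hZF, fun v => ?_⟩
  have h1 : wordClass W.toCohomologyData p f (a • (1 : W.H (power (pt k) m))) v =
      a • wordClass W.toCohomologyData (toPt k T) f (1 : W.H (pt k)) v := by
    change W.pullA p (a • 1) * _ = a • (W.pullA (toPt k T) 1 * _)
    rw [map_smul, map_one, map_one, smul_mul_assoc]
  rw [h1, mul_smul_comm, map_smul, smul_eq_mul]
  exact congrArg (a * ·) (hZv 1 v)

end Rational

section Core

variable {k : Type u} [Field k] {K : Type v} [Field K] [CharZero K]
  {W : WeilCohomology.{u, v, w} k K} {F : Subfield K}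
  {P : ℕ} {V : Fin P → SmProjVar k} {Γ : Type t} [Group Γ] {χ : Γ →* Kˣ}
  {ψ : Γ → ∀ c, W.H (V c) → W.H (V c)} {E : ∀ c, Submodule K (W.H (V c))}

/-- numerically trivial combinations of cycles of codimension `j` over `k` are orthogonal to
words, if those which are fixed by the group are -/
theorem trL_eq_zero_of_fixed (hG : IsGaloisAction W.toCohomologyData V χ ψ)
    (h : ∀ (b j : ℕ) (c : Fin b → Fin P),
      ∀ z ∈ codSpan W.toCohomologyData F (prodVar (pt k) fun i => V (c i)) j,
        IsNumTrivial W.toCohomologyData _ z →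
        (∀ g, IsConj W.toCohomologyData (ψ g) (χ g : K) c j z z) →
        ∀ v : ∀ i, W.H (V (c i)), (∀ i, v i ∈ E (c i)) →
          W.trL (prodVar (pt k) fun i => V (c i)) (z *
            (extProd W.toCohomologyData (A := pt k) 1 v :
              W.H (prodVar (pt k) fun i => V (c i)))) = 0)
    {b j : ℕ} {c : Fin b → Fin P} {z : W.H (prodVar (pt k) fun i => V (c i))}
    (hz : z ∈ codSpan W.toCohomologyData F (prodVar (pt k) fun i => V (c i)) j)
    (hnt : IsNumTrivial W.toCohomologyData _ z) {v : ∀ i, W.H (V (c i))}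
    (hv : ∀ i, v i ∈ E (c i)) :
    W.trL (prodVar (pt k) fun i => V (c i)) (z *
      (extProd W.toCohomologyData (A := pt k) 1 v :
        W.H (prodVar (pt k) fun i => V (c i)))) = 0 := by
  obtain ⟨O, hzO, hO⟩ := exists_psum hG hz hnt
  refine eq_zero_of_psum O (fun y => W.trL (prodVar (pt k) fun i => V (c i)) (y *
    (extProd W.toCohomologyData (A := pt k) 1 v :
      W.H (prodVar (pt k) fun i => V (c i))))) (fun r => ?_) z hzO
  obtain ⟨a, U, ha, hU, hUnt, hfix, hval⟩ := hO (r + 1) (Nat.succ_pos r)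
  have h1 := hval fun _ => v
  simp only [prod_const, card_univ, Fintype.card_fin] at h1
  have h2 := h _ _ (fun q : Fin ((r + 1) * b) => c q.modNat) U hU hUnt hfix
    (fun q => v q.modNat) fun q => hv _
  rw [h2] at h1
  exact (mul_eq_zero.mp h1.symm).resolve_left ha

/-- **The core of Galois descent for D, for words.** -/
theorem numTrivialOrthogonal_of_fixed (hG : IsGaloisAction W.toCohomologyData V χ ψ)
    (h : ∀ (b j : ℕ) (c : Fin b → Fin P),
      ∀ z ∈ codSpan W.toCohomologyData F (prodVar (pt k) fun i => V (c i)) j,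
        IsNumTrivial W.toCohomologyData _ z →
        (∀ g, IsConj W.toCohomologyData (ψ g) (χ g : K) c j z z) →
        ∀ v : ∀ i, W.H (V (c i)), (∀ i, v i ∈ E (c i)) →
          W.trL (prodVar (pt k) fun i => V (c i)) (z *
            (extProd W.toCohomologyData (A := pt k) 1 v :
              W.H (prodVar (pt k) fun i => V (c i)))) = 0) (n : ℕ) :
    NumTrivialOrthogonal W.toCohomologyData (pt k) V E n := by
  rintro T z y hz ⟨m, b, p, x, c, f, t, v, -, hv, -, rfl⟩
  obtain ⟨M, α, y, hy, rfl⟩ := exists_rational_parts W F hz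
  change W.trL T ((∑ s, α s • y s) * _) = 0
  rw [sum_mul, map_sum]
  refine sum_eq_zero fun s _ => ?_
  rw [smul_mul_assoc, map_smul]
  obtain ⟨Z, a, hZ, hZF, hZv⟩ := exists_push_word W F (V := fun i => V (c i)) p x f (hy s).2
    (hy s).1
  obtain ⟨Y, hY, hZY, hYnt⟩ := exists_components W hZF
  have h4 : W.trL (prodVar (pt k) fun i => V (c i)) (Z *
      (extProd W.toCohomologyData (A := pt k) 1 v : W.H (prodVar (pt k) fun i => V (c i)))) = 0 := by
    rw [hZY, sum_mul, map_sum]
    exact sum_eq_zero fun j _ => trL_eq_zero_of_fixed hG h (hY j) (hYnt hZ j) hv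
  have h5 := hZv v
  rw [h4, mul_zero] at h5
  exact (congrArg (α s • ·) h5).trans (smul_zero _)

/-- **The core of Galois descent for D.** -/
theorem standardD_of_fixed (hG : IsGaloisAction W.toCohomologyData V χ ψ)
    (h : ∀ (b j : ℕ) (c : Fin b → Fin P),
      ∀ z ∈ codSpan W.toCohomologyData F (prodVar (pt k) fun i => V (c i)) j,
        IsNumTrivial W.toCohomologyData _ z →
        (∀ g, IsConj W.toCohomologyData (ψ g) (χ g : K) c j z z) →
        ∀ v : ∀ i, W.H (V (c i)), (∀ i, v i ∈ E (c i)) →
          W.trL (prodVar (pt k) fun i => V (c i)) (z *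
            (extProd W.toCohomologyData (A := pt k) 1 v :
              W.H (prodVar (pt k) fun i => V (c i)))) = 0) {Y : SmProjVar k}
    (hY : Ro.IsSpanned W.toCohomologyData V E Y) : W.StandardD Y := by
  obtain ⟨n, hn⟩ := Ro.exists_spannedBy W hY
  exact Can.standardD_of_numTrivialOrthogonal W (numTrivialOrthogonal_of_fixed hG h n) hn

end Core

section Descent

variable {k₀ : Type u} [Field k₀] {k : Type u'} [Field k] {K : Type v} [Field K] [CharZero K]
  {W₀ : WeilCohomology.{u, v, w} k₀ K} {W : WeilCohomology.{u', v, w'} k K} {F : Subfield K}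
  {P : ℕ} {V₀ : Fin P → SmProjVar k₀} {V : Fin P → SmProjVar k}
  {φ : ∀ c, W₀.H (V₀ c) → W.H (V c)} {Γ : Type t} [Group Γ] {χ : Γ →* Kˣ}
  {ψ : Γ → ∀ c, W.H (V c) → W.H (V c)}

/-- fixed numerically trivial classes over `k` are orthogonal to words -/
theorem fixed_orthogonal
    (hX : IsGaloisExtension W₀.toCohomologyData W.toCohomologyData F V₀ V φ χ ψ)
    {E₀ : ∀ c, Submodule K (W₀.H (V₀ c))}
    (h : ∀ n, NumTrivialOrthogonal W₀.toCohomologyData (pt k₀) V₀ E₀ n) (b j : ℕ)
    (c : Fin b → Fin P) (z : W.H (prodVar (pt k) fun i => V (c i)))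
    (hz : z ∈ codSpan W.toCohomologyData F (prodVar (pt k) fun i => V (c i)) j)
    (hnt : IsNumTrivial W.toCohomologyData _ z)
    (hfix : ∀ g, IsConj W.toCohomologyData (ψ g) (χ g : K) c j z z)
    (v : ∀ i, W.H (V (c i))) (hv : ∀ i, v i ∈ (E₀ (c i)).map (hX.extension.lin (c i))) :
    W.trL (prodVar (pt k) fun i => V (c i)) (z *
      (extProd W.toCohomologyData (A := pt k) 1 v :
        W.H (prodVar (pt k) fun i => V (c i)))) = 0 := by
  choose v' hv' hvv using hv
  have h3 : (fun i => φ (c i) (v' i)) = v := funext hvv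
  rw [← h3]
  obtain ⟨u, hu, hd⟩ := hX.descent _ _ c z hz hfix
  refine (hd v').trans ?_
  obtain ⟨l, hl, hcmp⟩ := Helper29.GD.exists_factor hX.extension c
  refine h b _ u _ ⟨cycleSpan_le W₀ _ (mem_of_mem_codSpan W₀ hu).1, fun y hy => ?_⟩
    ⟨0, b, prodFst (pt k₀) fun q => V₀ (c q), 1, c, prodProj (pt k₀) fun q => V₀ (c q),
      fun _ => 0, v', le_rfl, hv', by simp, rfl⟩
  unfold CohomologyData.algClasses at hy
  change W₀.trL _ (u * y) = 0
  induction hy using Submodule.span_induction with
  | mem y hy =>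
    obtain ⟨i, d, rfl⟩ := hy
    obtain ⟨d', hd'⟩ := hX.extension.cycle _ i c d
    have h3 := hcmp u (W₀.cy _ i d) z (W.cy _ i d') hd hd'
    have h4 : W.trL _ (z * W.cy _ i d') = 0 := hnt.2 _ (Submodule.subset_span ⟨i, d', rfl⟩)
    rw [h4] at h3
    exact (mul_eq_zero.mp h3.symm).resolve_left hl
  | zero => rw [mul_zero, map_zero]
  | add a b _ _ ha hb => rw [mul_add, map_add, ha, hb, add_zero]
  | smul c a _ ha => rw [mul_smul_comm, map_smul, ha, smul_zero]

/-- **Galois descent for D.** -/
theorem standardD_of_isGaloisExtension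
    (hX : IsGaloisExtension W₀.toCohomologyData W.toCohomologyData F V₀ V φ χ ψ)
    {E₀ : ∀ c, Submodule K (W₀.H (V₀ c))}
    (h : ∀ n, NumTrivialOrthogonal W₀.toCohomologyData (pt k₀) V₀ E₀ n) {Y : SmProjVar k}
    (hY : Ro.IsSpanned W.toCohomologyData V (fun c => (E₀ c).map (hX.extension.lin c)) Y) :
    W.StandardD Y :=
  standardD_of_fixed hX.action (fixed_orthogonal hX h) hY

end Descent

end Pool.Agent.Helper34.GD
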