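import Mathlib
import Pool.Agent.Helper11.SS.Final

/-!
# Words in pieces with a simple Frobenius spectrum at a specialisation
-/

universe u v w u' w'

open CategoryTheory Finset Polynomial

namespace Pool.Agent.Helper34.GD

open Pool.Agent.Helper10 hiding IsAlgAut parityPart
open SmProjVar Pool.Agent.Helper10.GIT
open Pool.Agent.Helper11 Pool.Agent.Helper11.BD Pool.Agent.Helper11.Zt
open Pool.Agent.Helper11.Obs (extProd wordClass prodVar prodFst prodProj IsNumTrivial parityPart
  power wordVar AreRelatedFlags IsTotallyIsotropic NumTrivialOrthogonal IsPiece)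

variable {k : Type u} [Field k] {K : Type v} [Field K] [CharZero K]
  (W : WeilCohomology.{u, v, w} k K) {F : Subfield K}
  {k' : Type u'} [Field k'] (W' : WeilCohomology.{u', v, w'} k' K)
  {P : ℕ} {V : Fin P → SmProjVar k} {V' : Fin P → SmProjVar k'}
  {φ : ∀ c, W.H (V c) → W'.H (V' c)}

/-- Numerically trivial classes are orthogonal to words in pieces which specialise. (This is the
proof of `standardD_of_areSpecializations'` in `Helper11.SS.M`.) -/
theorem numTrivialOrthogonal_of_areSpecializations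
    (hφ : AreSpecializations W.toCohomologyData W'.toCohomologyData V V' φ)
    {E : ∀ c, Submodule K (W.H (V c))}
    (hE : ∀ c, Ro.IsPieceOver W.toCohomologyData F (V c) (E c))
    (h : ∀ c, HasNoIsotropicClass W.toCohomologyData W'.toCohomologyData F (E c) (φ c))
    (hD : ∀ n, NumTrivialOrthogonal W'.toCohomologyData (pt k') V'
      (fun c => (E c).map (hφ.lin c)) n)
    (n : ℕ) : NumTrivialOrthogonal W.toCohomologyData (pt k) V E n := by
  classical
  refine (Ro.orthogonal_iff.{u, v, w, v} W (Ro.standardD_power_pt W) V _ hE).mpr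
    (fun G hG hdet => ?_) n
  obtain ⟨N, m, b, l, r, f, e, z, x, hm, hN, hf, hz, hzF, hv⟩ := hdet
  have hpar : ∀ c, ∃ p, E c ≤ parityPart W.toCohomologyData (V c) p := fun c => (hE c).parity
  choose p hp using hpar
  choose u hu hu1 using fun c => (hE c).projector
  have hfE : ∀ y t, f y t ∈ E y.1 := fun y t => hG.le y.1 y.2 (by
    rw [← (hf y).2]
    exact Submodule.subset_span ⟨t, rfl⟩)
  -- the projectors and the pairing
  have hproj : ∀ (c : Fin P) (y g : W.H (V c)), g ∈ E c →
      W.pairing (V c) (u c y) g = W.pairing (V c) y g := by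
    intro c y g hg
    have hg' := parityPart_le_par W (V c) (p c) (hp c hg)
    have h1 := trL_mul_par W _ hg' (u c y)
    have h2 := trL_mul_par W _ hg' y
    have h3 : W.trL (V c) (g * u c y) = W.trL (V c) (g * y) := (hu1 c y).2 g hg
    rw [h3, h2] at h1
    change W.trL (V c) (u c y * g) = W.trL (V c) (y * g)
    split_ifs at h1
    · simpa using h1.symm
    · simpa using h1.symm
  obtain ⟨z₁, hz₁, hz₁v⟩ := Rn.exists_slots W (F := F) (A := power (pt k) l)
    (V := fun q => V (e.symm q).1.2.1) (w := fun q => u (e.symm q).1.2.1)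
    (fun q => hu _) (show z ∈ Rn.nt W F _ from ⟨hzF, hz⟩)
  have hval : ∀ v : (∀ q : (Σ y : Fin m × Fin P × Fin N, Fin (r y.2)), W.H (V q.1.2.1)),
      W.pairing (wordVar (pt k) V l fun q => (e.symm q).1.2.1) z₁
        (extProd W.toCohomologyData x fun q => v (e.symm q)) =
      ∏ y, Matrix.det (Matrix.of fun s t => W.pairing (V y.2.1) (v ⟨y, s⟩) (f y.2 t)) := by
    intro v
    refine (hz₁v x fun q => v (e.symm q)).trans
      ((hv (fun q => u q.1.2.1 (v q)) fun q => (hu1 _ _).1).trans ?_)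
    refine prod_congr rfl fun y _ => ?_
    congr 1
    ext s t
    exact hproj _ _ _ (hfE _ _)
  -- a family of vectors where the value is `1`
  obtain ⟨v₁, hv₁⟩ : ∃ v : (∀ q : (Σ y : Fin m × Fin P × Fin N, Fin (r y.2)), W.H (V q.1.2.1)),
      W.pairing (wordVar (pt k) V l fun q => (e.symm q).1.2.1) z₁
        (extProd W.toCohomologyData x fun q => v (e.symm q)) = 1 := by
    choose g hg using fun y : Fin P × Fin N => exists_dual_family W (hf y).1
    refine ⟨fun q => g q.1.2 q.2, (hval fun q => g q.1.2 q.2).trans ?_⟩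
    refine prod_eq_one fun y _ => ?_
    have h5 : (Matrix.of fun s t => W.pairing (V y.2.1) (g y.2 s) (f y.2 t)) = 1 := by
      ext s t
      rw [Matrix.of_apply, Matrix.one_apply]
      exact hg y.2 s t
    rw [h5, Matrix.det_one]
  have hx0 : x ≠ 0 := by
    rintro rfl
    have h3 := Ro.extProd_smul W (0 : K) (0 : W.H (power (pt k) l)) fun q => v₁ (e.symm q)
    rw [zero_smul, zero_smul] at h3
    have h4 : W.trL _ (z₁ * extProd W.toCohomologyData (0 : W.H (power (pt k) l))
      fun q => v₁ (e.symm q)) = 1 := hv₁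
    rw [h3, mul_zero, map_zero] at h4
    exact zero_ne_one h4
  rcases b with _ | b
  · -- no slots
    obtain ⟨c, hc⟩ := Ro.exists_smul_of_dim_zero W (X := power (pt k) l) (Ro.power_pt_dim l)
      (x := 1) (fun h => hx0 (by rw [← one_mul x, h, zero_mul])) x
    have h1 : (extProd W.toCohomologyData x fun q => v₁ (e.symm q) :
        W.H (wordVar (pt k) V l fun q => (e.symm q).1.2.1)) ∈ W.algClasses _ := by
      have h2 : (extProd W.toCohomologyData x fun q => v₁ (e.symm q) :
        W.H (wordVar (pt k) V l fun q => (e.symm q).1.2.1)) = c • 1 := by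
        change W.pullA (𝟙 (power (pt k) l).toOver) x * 1 = c • (1 : W.H (power (pt k) l))
        rw [hc, map_smul, map_one, mul_one]
      rw [h2]
      exact Submodule.smul_mem _ _ (cycleSpan_le (F := F) W _ (Ro.one_mem_cycleSpan W F _))
    rw [hz₁.2.2 _ h1] at hv₁
    exact zero_ne_one hv₁
  -- specialisation
  obtain ⟨z₂, c₂, hc₂, hz₂F, hz₂v⟩ := exists_pt W (V := fun q => V (e.symm q).1.2.1) hz₁ hx0
  obtain ⟨z', hz'F, hz'v⟩ := hφ.exists_spec (fun q => (e.symm q).1.2.1) hz₂F
  have hval' : ∀ v : (∀ q : (Σ y : Fin m × Fin P × Fin N, Fin (r y.2)), W.H (V q.1.2.1)),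
      W'.trL (prodVar (pt k') fun q => V' (e.symm q).1.2.1)
        (z' * (extProd W'.toCohomologyData (A := pt k') 1
          (fun q => φ (e.symm q).1.2.1 (v (e.symm q))) :
          W'.H (prodVar (pt k') fun q => V' (e.symm q).1.2.1))) =
      c₂ * ∏ y, Matrix.det (Matrix.of fun s t => W.pairing (V y.2.1) (v ⟨y, s⟩) (f y.2 t)) := by
    intro v
    rw [hz'v fun q => v (e.symm q), ← hval v]
    exact hz₂v fun q => v (e.symm q)
  obtain ⟨a', ha', hza⟩ := exists_cycle_of_word (W := W') (V := V')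
    (E := fun c => (E c).map (hφ.lin c)) (c := fun q => (e.symm q).1.2.1) (hD (b + 1)) hz'F
    (v := fun q => φ (e.symm q).1.2.1 (u (e.symm q).1.2.1 (v₁ (e.symm q))))
    (fun q => ⟨u (e.symm q).1.2.1 (v₁ (e.symm q)), (hu1 _ _).1, rfl⟩) (by
      rw [hval' fun q => u q.1.2.1 (v₁ q)]
      have h1 : ∏ y, Matrix.det (Matrix.of fun s t => W.pairing (V y.2.1)
          (u y.2.1 (v₁ ⟨y, s⟩)) (f y.2 t)) = 1 := by
        rw [← hv₁, hval v₁]
        refine prod_congr rfl fun y _ => ?_
        congr 1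
        ext s t
        exact hproj _ _ _ (hfE _ _)
      have h2 : c₂ * ∏ y, Matrix.det (Matrix.of fun s t => W.pairing (V y.2.1)
          (u y.2.1 (v₁ ⟨y, s⟩)) (f y.2 t)) ≠ 0 := by
        rw [h1, mul_one]
        exact hc₂
      exact h2)
  -- the last slot
  let c : Fin (b + 1) → Fin P := fun q => (e.symm q).1.2.1
  let p₀ := e.symm (Fin.last b)
  let G₀ : Submodule K (W.H (V (c (Fin.last b)))) := G p₀.1.2.1 p₀.1.2.2
  let G' : Submodule K (W'.H (V' (c (Fin.last b)))) := G₀.map (hφ.lin (c (Fin.last b)))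
  have hG' : G' ≤ par W' (decide (Odd (p (c (Fin.last b))))) (V' (c (Fin.last b))) := by
    rintro _ ⟨g, hg, rfl⟩
    exact parityPart_le_par W' _ _ (hφ.map_par _ (hp _ (hG.le _ _ hg)))
  have hzG := mem_last_slot_par W' (V := fun q => V' (c q)) (z := z') (G := G') hG'
    (fun v hvG => by
      choose w hw using fun q => (hφ.bijective (c q)).2 (v q)
      obtain ⟨w', hw'⟩ : ∃ w' : (∀ q : (Σ y : Fin m × Fin P × Fin N, Fin (r y.2)),
          W.H (V q.1.2.1)), (fun q => w' (e.symm q)) = w :=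
        ⟨(Equiv.piCongrLeft' (fun q : (Σ y : Fin m × Fin P × Fin N, Fin (r y.2)) =>
          W.H (V q.1.2.1)) e).symm w, (Equiv.piCongrLeft' (fun q :
            (Σ y : Fin m × Fin P × Fin N, Fin (r y.2)) => W.H (V q.1.2.1)) e).apply_symm_apply w⟩
      have h1 : v = fun q => φ (c q) (w' (e.symm q)) := by
        funext q
        rw [← hw q, ← hw']
      rw [h1]
      refine (hval' w').trans ?_
      have h3 : Matrix.det (Matrix.of fun s t => W.pairing (V p₀.1.2.1) (w' ⟨p₀.1, s⟩)
          (f p₀.1.2 t)) = 0 := by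
        refine Matrix.det_eq_zero_of_row_eq_zero p₀.2 fun t => ?_
        rw [Matrix.of_apply]
        have h4 : f p₀.1.2 t ∈ G₀ := by
          change f p₀.1.2 t ∈ G p₀.1.2.1 p₀.1.2.2
          rw [← (hf p₀.1.2).2]
          exact Submodule.subset_span ⟨t, rfl⟩
        have h5 := hvG _ ⟨_, h4, rfl⟩
        rw [h1] at h5
        have h6 := hφ.pairing_eq (c (Fin.last b)) (w' (e.symm (Fin.last b))) (f p₀.1.2 t)
        exact h6.symm.trans h5
      rw [prod_eq_zero (mem_univ p₀.1) h3, mul_zero])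
  -- the contraction
  obtain ⟨u', hu', hu'φ⟩ := hφ.exists_map (c (Fin.last b)) (hu (c (Fin.last b)))
  have huG : ∀ g ∈ G', ∀ x, W'.pairing (V' (c (Fin.last b))) g (u' x) =
      W'.pairing (V' (c (Fin.last b))) g x := by
    rintro _ ⟨g, hg, rfl⟩ x
    obtain ⟨x, rfl⟩ := (hφ.bijective (c (Fin.last b))).2 x
    change W'.pairing _ (φ (c (Fin.last b)) g) _ = W'.pairing _ (φ (c (Fin.last b)) g) _
    rw [hu'φ, hφ.pairing_eq, hφ.pairing_eq]
    exact (hu1 _ x).2 g (hG.le _ _ hg)
  obtain ⟨M, g, x', hg, hγ, hγ0⟩ := exists_contraction_par' W' hG' hu' huG hz'F ha' hzG hza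
  choose g₀ hg₀ hg₀' using hg
  choose x₀ hx₀ using fun i => (hφ.bijective (c (Fin.last b))).2 (x' i)
  have heq : (∑ i, W'.pull (fst (V' (c (Fin.last b))) (V' (c (Fin.last b)))) (g i) *
      W'.pull (snd (V' (c (Fin.last b))) (V' (c (Fin.last b)))) (u' (x' i))) =
      ∑ i, W'.pull (fst (V' (c (Fin.last b))) (V' (c (Fin.last b))))
          (φ (c (Fin.last b)) (g₀ i)) *
        W'.pull (snd (V' (c (Fin.last b))) (V' (c (Fin.last b))))
          (φ (c (Fin.last b)) (u (c (Fin.last b)) (x₀ i))) := by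
    refine sum_congr rfl fun i _ => ?_
    have h1 : g i = φ (c (Fin.last b)) (g₀ i) := (hg₀' i).symm
    rw [← hu'φ, hx₀, h1]
  rw [heq] at hγ hγ0
  exact hγ0 (h (c (Fin.last b)) G₀ (hG.le _ _)
    (fun u hu h => hG.correspondences _ _ u hu h _) (hG.isotropic _ _) M g₀
    (fun i => u (c (Fin.last b)) (x₀ i)) (fun i => ⟨hg₀ i, (hu1 _ _).1⟩) hγ)


/-- **Numerically trivial classes are orthogonal to words in pieces with a simple Frobenius
spectrum at a specialisation.** -/
theorem numTrivialOrthogonal_of_simpleFrobenius [Finite k']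
    (hφ : AreSpecializations W.toCohomologyData W'.toCohomologyData V V' φ)
    {E : ∀ c, Submodule K (W.H (V c))}
    (hE : ∀ c, Ro.IsPieceOver W.toCohomologyData (ratField K) (V c) (E c))
    (hmid : ∀ c, E c ≤ W.gr (V c) (V c).dim) {R : Fin P → ℚ[X]}
    (hR : ∀ c, IsCharpolyOn (W'.pull (frob (V' c))) ((E c).map (hφ.lin c))
      ((R c).map (algebraMap ℚ K)))
    (hsq : ∀ c, Squarefree (R c))
    (habs : ∀ c, ∀ z : ℂ, aeval z (R c) = 0 → ‖z‖ ^ 2 = (Nat.card k' : ℝ) ^ (V c).dim)
    (hself : ∀ c (p : K[X]), Irreducible p → p ∣ (R c).map (algebraMap ℚ K) →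
      Associated p (dualPoly ((Nat.card k' : K) ^ (V c).dim) p)) (n : ℕ) :
    NumTrivialOrthogonal W.toCohomologyData (pt k) V E n := by
  refine numTrivialOrthogonal_of_areSpecializations W W' hφ hE (fun c =>
    hasNoIsotropicClass_of_isPositiveAt _ _ (isPositiveAt_of_simple W W' hφ c (hE c) (hmid c)
      (hR c) (hsq c) (habs c))) (fun n => ?_) n
  refine numTrivialOrthogonal_of_simple W' (fun c => hφ.isPiece c (hE c)) hR (fun c => ?_)
    (fun c p hp hpR => ?_) n
  · exact ((PerfectField.separable_iff_squarefree.mpr (hsq c)).map).squarefree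
  · rw [hφ.dim_eq]
    exact hself c p hp hpR

end Pool.Agent.Helper34.GD
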