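import Mathlib
import Pool.Agent.Helper34.GD.Main
import Pool.Agent.Helper34.GD.SF
import Pool.Agent.Helper11.BD.Dall

/-!
# Galois descent for the standard conjecture D: the final form
-/

universe u v w u' w' t

open CategoryTheory Finset

namespace Pool.Agent.Helper34.GD

open Pool.Agent.Helper10 hiding IsAlgAut parityPart
open SmProjVar Pool.Agent.Helper10.GIT
open Pool.Agent.Helper11 Pool.Agent.Helper11.BD Pool.Agent.Helper11.Zt
open Pool.Agent.Helper11.Obs (extProd wordClass prodVar prodFst prodProj IsNumTrivial power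
  NumTrivialOrthogonal)

section Words

variable {k : Type u} [Field k] {K : Type v} [Field K] [CharZero K]
  (W : WeilCohomology.{u, v, w} k K) {P : ℕ} {V : Fin P → SmProjVar k}
  {E : ∀ c, Submodule K (W.H (V c))}

/-- words with a class of a power of the point -/
lemma numTrivialOrthogonal_of_words
    (h : ∀ (T : SmProjVar k) (z y : W.H T), IsNumTrivial W.toCohomologyData T z →
      Ro.IsWordIn W.toCohomologyData V E T y → W.pairing T z y = 0) (n : ℕ) :
    NumTrivialOrthogonal W.toCohomologyData (pt k) V E n := by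
  rintro T z y hz ⟨m, b, p, x, c, f, t, v, -, hv, -, rfl⟩
  have hone : (1 : W.H (power (pt k) m)) ≠ 0 := by
    intro h
    obtain ⟨y, ⟨-, hy⟩, -⟩ := (W.trace (power (pt k) m)).bijective 1
    rw [← one_mul y, h, zero_mul] at hy
    exact zero_ne_one ((map_zero (W.trL (power (pt k) m))).symm.trans hy)
  obtain ⟨a, rfl⟩ := Ro.exists_smul_of_dim_zero W (Ro.power_pt_dim m) hone x
  have h1 : wordClass W.toCohomologyData p f (a • (1 : W.H (power (pt k) m))) v =
      a • (List.ofFn fun i => W.pull (f i) (v i)).prod := by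
    change W.pullA p (a • 1) * _ = _
    rw [map_smul, map_one, smul_mul_assoc, one_mul]
  rw [h1]
  have h2 := h T z _ hz ⟨b, c, f, v, hv, rfl⟩
  change W.trL T (z * (a • _)) = 0
  rw [mul_smul_comm, map_smul]
  exact (congrArg (a • ·) h2).trans (smul_zero _)

/-- if D holds for the products, numerically trivial classes are orthogonal to words -/
lemma words_of_standardD
    (hD : ∀ (b : ℕ) (c : Fin b → Fin P), W.StandardD (prodVar (pt k) fun i => V (c i)))
    (T : SmProjVar k) (z y : W.H T) (hz : IsNumTrivial W.toCohomologyData T z)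
    (hy : Ro.IsWordIn W.toCohomologyData V E T y) : W.pairing T z y = 0 := by
  obtain ⟨b, c, f, v, hv, rfl⟩ := hy
  obtain ⟨m, α, y, hy, rfl⟩ := exists_rational_parts W (ratField K) hz
  change W.trL T ((∑ s, α s • y s) * _) = 0
  rw [sum_mul, map_sum]
  refine sum_eq_zero fun s _ => ?_
  obtain ⟨Z, hZ, -, hZv⟩ := Ro.exists_push W (F := ratField K) (A := pt k)
    (V := fun i => V (c i)) (toPt k T) f (hy s).2 (hy s).1
  have h1 := hZv 1 v
  have h2 : Z = 0 := eq_zero_of_isNumTrivial W (hD b c) hZ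
  rw [h2] at h1
  have h3 : W.pairing (prodVar (pt k) fun i => V (c i)) 0
      (extProd W.toCohomologyData (A := pt k) 1 v) = 0 := by
    change W.trL _ (0 * _) = 0
    rw [zero_mul, map_zero]
  rw [h3] at h1
  have h4 : wordClass W.toCohomologyData (toPt k T) f (1 : W.H (pt k)) v =
      (List.ofFn fun i => W.pull (f i) (v i)).prod := by
    change W.pullA (toPt k T) 1 * _ = _
    rw [map_one, one_mul]
  rw [h4] at h1
  rw [smul_mul_assoc, map_smul]
  exact (congrArg (α s • ·) h1).trans (smul_zero _)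

end Words

/-- **Galois descent for the standard conjecture D.** -/
theorem galoisDescent
    {k₀ : Type u} [Field k₀] {k : Type u} [Field k] {K : Type v} [Field K] [CharZero K]
    (W₀ : WeilCohomology.{u, v, w} k₀ K) (W : WeilCohomology.{u, v, w} k K)
    {P : ℕ} {V₀ : Fin P → SmProjVar k₀} {V : Fin P → SmProjVar k}
    {φ : ∀ c, W₀.H (V₀ c) → W.H (V c)} {Γ : Type t} [Group Γ] {χ : Γ →* Kˣ}
    {ψ : Γ → ∀ c, W.H (V c) → W.H (V c)}
    (hφ : IsGaloisExtension W₀.toCohomologyData W.toCohomologyData (ratField K) V₀ V φ χ ψ)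
    (E : ∀ c, Submodule K (W₀.H (V₀ c))) :
    (((∀ (b : ℕ) (c : Fin b → Fin P), W₀.StandardD (prodVar (pt k₀) fun i => V₀ (c i))) ∨
      (∀ (T : SmProjVar k₀) (z y : W₀.H T), IsNumTrivial W₀.toCohomologyData T z →
        Ro.IsWordIn W₀.toCohomologyData V₀ E T y → W₀.pairing T z y = 0)) →
      ∀ Y, Ro.IsSpanned W.toCohomologyData V (fun c => (E c).map (hφ.extension.lin c)) Y →
        W.StandardD Y) ∧
    ∀ {k' : Type u'} [Field k'] [Finite k'] (W' : WeilCohomology.{u', v, w'} k' K)
      (V' : Fin P → SmProjVar k') (φ' : ∀ c, W₀.H (V₀ c) → W'.H (V' c))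
      (hφ' : AreSpecializations W₀.toCohomologyData W'.toCohomologyData V₀ V' φ')
      (_ : ∀ c, Ro.IsPieceOver W₀.toCohomologyData (ratField K) (V₀ c) (E c))
      (_ : ∀ c, E c ≤ W₀.gr (V₀ c) (V₀ c).dim)
      (R : Fin P → Polynomial ℚ)
      (_ : ∀ c, IsCharpolyOn (W'.pull (frob (V' c))) ((E c).map (hφ'.lin c))
        ((R c).map (algebraMap ℚ K)))
      (_ : ∀ c, Squarefree (R c))
      (_ : ∀ c, ∀ z : ℂ, Polynomial.aeval z (R c) = 0 →
        ‖z‖ ^ 2 = (Nat.card k' : ℝ) ^ (V₀ c).dim)
      (_ : ∀ c (p : Polynomial K), Irreducible p → p ∣ (R c).map (algebraMap ℚ K) →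
        Associated p (dualPoly ((Nat.card k' : K) ^ (V₀ c).dim) p)),
      ∀ Y, Ro.IsSpanned W.toCohomologyData V (fun c => (E c).map (hφ.extension.lin c)) Y →
        W.StandardD Y := by
  refine ⟨fun h Y hY => ?_, ?_⟩
  · refine standardD_of_isGaloisExtension hφ (numTrivialOrthogonal_of_words W₀ ?_) hY
    rcases h with hD | h
    · exact words_of_standardD W₀ hD
    · exact h
  · intro k' _ _ W' V' φ' hφ' hE hmid R hR hsq habs hself Y hY
    exact standardD_of_isGaloisExtension hφ
      (numTrivialOrthogonal_of_simpleFrobenius W₀ W' hφ' hE hmid hR hsq habs hself) hY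

end Pool.Agent.Helper34.GD
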